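import Pool.Agent.Helper69.RF.Bas

/-!
# Project RF (MP_e74dc5_nt), module PSI: the product formula
-/

set_option autoImplicit false

namespace Pool.Agent.Helper82.RF

open Pool.Agent.Helper69.RF Helper62.Weber Polynomial

theorem psi_refl (n j : ℕ) (hj : j ≤ 2 ^ (n + 1)) : cR n (2 ^ (n + 1) - j) = -cR n j := by
  have h : 2 * Real.pi * ((2 ^ (n + 1) - j : ℕ) : ℝ) / 2 ^ (n + 2) =
      Real.pi - 2 * Real.pi * (j : ℝ) / 2 ^ (n + 2) := by
    rw [Nat.cast_sub hj]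
    push_cast
    field_simp
    ring
  rw [cR, cR, h, Real.cos_pi_sub]
  ring

theorem cPSI : PSI := by
  intro m
  induction m with
  | zero =>
    intro β _
    have h : cR 0 (2 * 0 + 1) = 0 := by
      rw [mul_zero, zero_add, cR_one, XR_zero]
    rw [pow_zero, Finset.prod_range_one, h]
    simp
  | succ m ih =>
    intro β hβ
    have h2 : 2 ^ (m + 1) = 2 ^ m + 2 ^ m := by ring
    rw [h2, Finset.prod_range_add, ← Finset.prod_range_reflect (fun x => β + β⁻¹ -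
      ((cR (m + 1) (2 * (2 ^ m + x) + 1) : ℝ) : ℂ)), ← Finset.prod_mul_distrib]
    have key : ∀ x ∈ Finset.range (2 ^ m),
        (β + β⁻¹ - ((cR (m + 1) (2 * x + 1) : ℝ) : ℂ)) *
          (β + β⁻¹ - ((cR (m + 1) (2 * (2 ^ m + (2 ^ m - 1 - x)) + 1) : ℝ) : ℂ)) =
        (β ^ 2 + (β ^ 2)⁻¹ - ((cR m (2 * x + 1) : ℝ) : ℂ)) := by
      intro x hx
      have hx' : x < 2 ^ m := Finset.mem_range.1 hx
      have e1 : 2 * (2 ^ m + (2 ^ m - 1 - x)) + 1 = 2 ^ (m + 1 + 1) - (2 * x + 1) := by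
        have : 2 ^ (m + 1 + 1) = 4 * 2 ^ m := by ring
        omega
      have e2 : 2 * x + 1 ≤ 2 ^ (m + 1 + 1) := by
        have : 2 ^ (m + 1 + 1) = 4 * 2 ^ m := by ring
        omega
      rw [e1, psi_refl (m + 1) (2 * x + 1) e2]
      have e3 : ((cR m (2 * x + 1) : ℝ) : ℂ) = ((cR (m + 1) (2 * x + 1) : ℝ) : ℂ) ^ 2 - 2 := by
        rw [← Complex.ofReal_pow, cR_sq]
        push_cast
        ring
      rw [e3]
      push_cast
      field_simp
      ring
    rw [Finset.prod_congr rfl key, ih (β ^ 2) (pow_ne_zero _ hβ)]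
    rw [← inv_pow, ← pow_mul, ← pow_mul]
    congr 2 <;> ring

end Pool.Agent.Helper82.RF
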