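import Pool.Agent.Helper69.RF.Bas

/-!
# Project RF (MP_e74dc5_nt), module RAT: rational functions with `f(x) f(-x) = 1`
-/

set_option autoImplicit false

namespace Pool.Agent.Helper82.RF

open Pool.Agent.Helper69.RF Helper62.Weber Polynomial

/-- the substitution `x ↦ -x` -/
noncomputable def sg : ℚ[X] →+* ℚ[X] := Polynomial.compRingHom (-X)

theorem sg_apply (p : ℚ[X]) : sg p = p.comp (-X) := rfl

theorem sg_sg (p : ℚ[X]) : sg (sg p) = p := by
  rw [sg_apply, sg_apply, Polynomial.comp_assoc]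
  have h : (-X : ℚ[X]).comp (-X) = X := by
    rw [Polynomial.neg_comp, Polynomial.X_comp, neg_neg]
  rw [h, Polynomial.comp_X]

theorem sg_C (c : ℚ) : sg (C c) = C c := by rw [sg_apply, Polynomial.C_comp]

theorem sg_ne {p : ℚ[X]} (h : p ≠ 0) : sg p ≠ 0 := by
  intro h0
  apply h
  rw [← sg_sg p, h0, map_zero]

theorem rat_prim (p : ℚ[X]) (hp : p ≠ 0) : ∃ (P : ℤ[X]) (r : ℚ), P.IsPrimitive ∧ r ≠ 0 ∧
    P.map (Int.castRingHom ℚ) = C r * p := by
  obtain ⟨b, hbm, hb⟩ := IsLocalization.integerNormalization_spec (nonZeroDivisors ℤ) p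
  set P0 : ℤ[X] := IsLocalization.integerNormalization (nonZeroDivisors ℤ) p with hP0
  have hb0 : ((b : ℤ) : ℚ) ≠ 0 := by
    have := nonZeroDivisors.ne_zero hbm
    exact_mod_cast this
  have hmap : P0.map (Int.castRingHom ℚ) = C ((b : ℤ) : ℚ) * p := by
    have h1 : P0.map (algebraMap ℤ ℚ) = (b : ℤ) • p := hb
    have h2 : algebraMap ℤ ℚ = Int.castRingHom ℚ := rfl
    rw [h2] at h1
    rw [h1, ← Polynomial.smul_eq_C_mul]
    exact (Int.cast_smul_eq_zsmul ℚ _ _).symm
  have hP00 : P0 ≠ 0 := by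
    intro h0
    rw [h0, Polynomial.map_zero] at hmap
    exact (mul_ne_zero (Polynomial.C_ne_zero.2 hb0) hp) hmap.symm
  have hc0 : P0.content ≠ 0 := by
    intro h0
    exact hP00 (Polynomial.content_eq_zero_iff.1 h0)
  have hcQ : ((P0.content : ℤ) : ℚ) ≠ 0 := by exact_mod_cast hc0
  refine ⟨P0.primPart, ((b : ℤ) : ℚ) / ((P0.content : ℤ) : ℚ), P0.isPrimitive_primPart,
    div_ne_zero hb0 hcQ, ?_⟩
  have h3 := congrArg (Polynomial.map (Int.castRingHom ℚ)) P0.eq_C_content_mul_primPart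
  rw [hmap, Polynomial.map_mul, Polynomial.map_C] at h3
  have h4 : C ((P0.content : ℤ) : ℚ) * (P0.primPart.map (Int.castRingHom ℚ)) =
      C ((P0.content : ℤ) : ℚ) * (C (((b : ℤ) : ℚ) / ((P0.content : ℤ) : ℚ)) * p) := by
    rw [← mul_assoc, ← Polynomial.C_mul, mul_div_cancel₀ _ hcQ]
    exact h3.symm
  exact mul_left_cancel₀ (Polynomial.C_ne_zero.2 hcQ) h4

theorem cRAT : RAT := by
  intro g h hh hgh
  have inj : Function.Injective (Polynomial.map (Int.castRingHom ℚ)) :=
    Polynomial.map_injective _ Int.cast_injective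
  set G : ℚ[X] := g.map (Int.castRingHom ℚ) with hG
  set H : ℚ[X] := h.map (Int.castRingHom ℚ) with hH
  have hcomp : ∀ f : ℤ[X], (f.comp (-X)).map (Int.castRingHom ℚ) =
      sg (f.map (Int.castRingHom ℚ)) := by
    intro f
    rw [sg_apply, Polynomial.map_comp, Polynomial.map_neg, Polynomial.map_X]
  have hH0 : H ≠ 0 := by
    intro h0
    apply hh
    apply inj
    rw [Polynomial.map_zero]
    exact h0
  have hGH : G * sg G = H * sg H := by
    have := congrArg (Polynomial.map (Int.castRingHom ℚ)) hgh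
    rw [Polynomial.map_mul, Polynomial.map_mul, hcomp, hcomp] at this
    exact this
  have hG0 : G ≠ 0 := by
    intro h0
    rw [h0, zero_mul] at hGH
    exact (mul_ne_zero hH0 (sg_ne hH0)) hGH.symm
  obtain ⟨p, hp⟩ := EuclideanDomain.gcd_dvd_left G H
  obtain ⟨q, hq⟩ := EuclideanDomain.gcd_dvd_right G H
  set d := EuclideanDomain.gcd G H with hd
  have hd0 : d ≠ 0 := by
    intro h0
    rw [h0, zero_mul] at hq
    exact hH0 hq
  have hcop : IsCoprime p q := by
    refine ⟨EuclideanDomain.gcdA G H, EuclideanDomain.gcdB G H, ?_⟩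
    have h1 := EuclideanDomain.gcd_eq_gcd_ab G H
    rw [← hd] at h1
    apply mul_left_cancel₀ hd0
    conv_rhs => rw [mul_one, h1]
    conv_rhs => rw [hp, hq]
    have hp' : d * p = G := hp.symm
    have hq' : d * q = H := hq.symm
    rw [hp', hq']
    calc d * (EuclideanDomain.gcdA G H * p + EuclideanDomain.gcdB G H * q)
        = (d * p) * EuclideanDomain.gcdA G H + (d * q) * EuclideanDomain.gcdB G H := by ring
      _ = _ := by rw [hp', hq']
  have hp0 : p ≠ 0 := by
    intro h0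
    rw [h0, mul_zero] at hp
    exact hG0 hp
  have hpq : p * sg p = q * sg q := by
    have h1 : (d * sg d) * (p * sg p) = (d * sg d) * (q * sg q) := by
      have e1 : G * sg G = (d * sg d) * (p * sg p) := by
        rw [hp, map_mul]; ring
      have e2 : H * sg H = (d * sg d) * (q * sg q) := by
        rw [hq, map_mul]; ring
      rw [← e1, ← e2, hGH]
    exact mul_left_cancel₀ (mul_ne_zero hd0 (sg_ne hd0)) h1
  have h1 : p ∣ sg q := hcop.dvd_of_dvd_mul_left ⟨sg p, hpq.symm⟩
  have hcop2 : IsCoprime (sg q) (sg p) := (hcop.map sg).symm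
  have h2 : sg q ∣ p := by
    apply hcop2.dvd_of_dvd_mul_right
    rw [hpq]
    exact ⟨q, by ring⟩
  obtain ⟨w, hw⟩ := associated_of_dvd_dvd h1 h2
  obtain ⟨c, hc, hcw⟩ := Polynomial.isUnit_iff.1 w.isUnit
  have hsq : sg q = C c * p := by rw [← hw, ← hcw]; ring
  have hq2 : q = C c * sg p := by
    rw [← sg_sg q, hsq, map_mul, sg_C]
  have hcc : c * c = 1 := by
    have h3 : (p * sg p) * C (c * c) = (p * sg p) * 1 := by
      rw [mul_one]
      conv_rhs => rw [hpq, hsq, hq2]
      rw [Polynomial.C_mul]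
      ring
    have h4 := mul_left_cancel₀ (mul_ne_zero hp0 (sg_ne hp0)) h3
    have h5 : C (c * c) = (C 1 : ℚ[X]) := by rw [h4, Polynomial.C_1]
    exact Polynomial.C_injective h5
  obtain ⟨e, he, hec⟩ : ∃ e : ℤ, (e = 1 ∨ e = -1) ∧ (e : ℚ) = c := by
    rcases mul_self_eq_one_iff.1 hcc with h | h
    · exact ⟨1, Or.inl rfl, by rw [h]; norm_num⟩
    · exact ⟨-1, Or.inr rfl, by rw [h]; norm_num⟩
  obtain ⟨P, r, hP, hr, hPr⟩ := rat_prim p hp0
  have hrC : IsUnit (C r : ℚ[X]) := Polynomial.isUnit_C.2 (isUnit_iff_ne_zero.2 hr)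
  have hcC : IsUnit (C c : ℚ[X]) := Polynomial.isUnit_C.2 hc
  refine ⟨P, e, hP, he, ?_, ?_, ?_⟩
  · have h3 : P.natDegree = p.natDegree := by
      have h5 : (P.map (Int.castRingHom ℚ)).natDegree = P.natDegree :=
        Polynomial.natDegree_map_eq_of_injective (f := Int.castRingHom ℚ) Int.cast_injective P
      rw [← h5, hPr, Polynomial.natDegree_C_mul hr]
    have h4 : G.natDegree = g.natDegree :=
      Polynomial.natDegree_map_eq_of_injective (f := Int.castRingHom ℚ) Int.cast_injective g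
    rw [h3, ← h4]
    exact Polynomial.natDegree_le_of_dvd ⟨d, by rw [hp]; ring⟩ hG0
  · rw [hcomp, hPr, map_mul, sg_C, isCoprime_mul_unit_left_left hrC,
      isCoprime_mul_unit_left_right hrC]
    have h3 : IsCoprime p (C c * sg p) := by rw [← hq2]; exact hcop
    exact (isCoprime_mul_unit_left_right hcC p (sg p)).1 h3
  · apply inj
    rw [Polynomial.map_mul, Polynomial.map_mul, Polynomial.map_mul, hcomp, Polynomial.map_C, hPr]
    rw [← hG, ← hH, hp, hq]
    conv_rhs => rw [hq2]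
    rw [map_mul, sg_C]
    have h3 : (Int.castRingHom ℚ) e = c := hec
    rw [h3]
    have h4 : (C c : ℚ[X]) * C c = 1 := by rw [← Polynomial.C_mul, hcc, Polynomial.C_1]
    calc d * p * (C r * sg p) = (1 : ℚ[X]) * (d * p * (C r * sg p)) := by rw [one_mul]
      _ = (C c * C c) * (d * p * (C r * sg p)) := by rw [h4]
      _ = _ := by ring

end Pool.Agent.Helper82.RF
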